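import Mathlib
import Pool.Agent.H14.Dice

set_option autoImplicit false

namespace Pool.Agent.Results.MP_eda2d2_co.Counter

open Pool.Agent.H14.Dice in
theorem result : ∃ p q r : ℕ, p.Prime ∧ q.Prime ∧ r.Prime ∧ p ≠ q ∧ p ≠ r ∧ q ≠ r ∧
    ∃ t ∈ S, (∀ i, 0 ≤ (A p q r t).coeff i) ∧ ∀ i, 0 ≤ (B p q r (bar t)).coeff i :=
  ⟨2, 3, 7, by norm_num, by norm_num, by norm_num, by norm_num, by norm_num, by norm_num,
    (2, 2, 1, 1), mem_S, fun i => A_eq ▸ nonneg An i, fun i => B_eq ▸ nonneg Bn i⟩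

end Pool.Agent.Results.MP_eda2d2_co.Counter
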